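import Mathlib

namespace Pool.Agent.H.MP_a1177b_an

open Set Filter Topology Metric

variable {g : ℕ}

open Classical in
/-- extension by zero to integer multi-indices -/
noncomputable def ex (κ : (Fin g → ℕ) → ℝ) (b : Fin g → ℤ) : ℝ :=
  if 0 ≤ b then κ fun i => (b i).toNat else 0

/-- cast of multi-indices -/
def up (a : Fin g → ℕ) : Fin g → ℤ := fun i => a i

lemma ex_up (κ : (Fin g → ℕ) → ℝ) (a : Fin g → ℕ) : ex κ (up a) = κ a := by
  rw [ex, if_pos (show 0 ≤ up a from fun i => Int.natCast_nonneg _)]; rfl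

lemma ex_ne {κ : (Fin g → ℕ) → ℝ} {b : Fin g → ℤ} (h : ex κ b ≠ 0) : 0 ≤ b := by
  by_contra c; exact h (if_neg c)

lemma lp {κ τ : (Fin g → ℕ) → ℝ} (κ0 : ∀ a, 0 ≤ κ a) (κ1 : κ 0 = 1) (τ0 : τ 0 = 0)
    (hτ : ∀ b ≠ 0, τ b = max 0 (κ b - ∑ w ∈ Finset.Ioo 0 b, τ w * κ (b - w))) (hs : HasSum τ 1)
    {ε : ℝ} (ε0 : 0 < ε) : ∃ (S : Finset (Fin g → ℕ)) (y : (Fin g → ℕ) → ℝ), 0 ∉ S ∧
      (∀ n, 0 ≤ y n) ∧ (∀ m, ∑ n ∈ S, y n * ex κ (up n - m) ≤ 1) ∧ 1 - ε ≤ ∑ n ∈ S, y n * κ n := by
  classical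
  have t0 : ∀ w, 0 ≤ τ w := fun w => by
    by_cases c : w = 0
    · rw [c, τ0]
    · rw [hτ w c]; exact le_max_left _ _
  have e0 : ∀ b, 0 ≤ ex κ b := fun b => by unfold ex; split_ifs; exacts [κ0 _, le_rfl]
  have zr : ∀ f : (Fin g → ℕ) → ℝ, (∀ w, f w ≠ 0 → False) → HasSum f 0 := fun f h => by
    rw [show f = fun _ => 0 from funext fun w => by_contra (h w)]; exact hasSum_zero
  have a : ∀ b : Fin g → ℤ, ∃ s, HasSum (fun w => τ w * ex κ (b - up w)) s ∧ (b ≠ 0 → ex κ b ≤ s) ∧
      ∀ n, b = up n → τ n ≠ 0 → s = κ n := fun b => by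
    by_cases c : 0 ≤ b
    · obtain ⟨n, rfl⟩ : ∃ n, b = up n := ⟨fun i => (b i).toNat, funext fun i =>
        (Int.toNat_of_nonneg (c i)).symm⟩
      have i : ∀ n', up n = up n' → n = n' := fun n' h => funext fun i =>
        Int.natCast_inj.1 (congrFun h i)
      by_cases z : n = 0
      · refine ⟨0, zr _ fun w q => ?_, fun h => (h (by rw [z]; rfl)).elim,
          fun n' h h' => (h' (by rw [← i n' h, z, τ0])).elim⟩
        refine left_ne_zero_of_mul q (by
          rw [show w = 0 from funext fun i => ?_, τ0]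
          have := ex_ne (right_ne_zero_of_mul q) i
          simp only [up, Pi.zero_apply, Pi.sub_apply, z] at this ⊢
          omega)
      have h1 : HasSum (fun w => τ w * ex κ (up n - up w))
          (∑ w ∈ Finset.Icc 0 n, τ w * ex κ (up n - up w)) :=
        hasSum_sum_of_ne_finset_zero fun w hw => by
          by_contra q
          refine hw (Finset.mem_Icc.2 ⟨zero_le, fun i => ?_⟩)
          have := ex_ne (right_ne_zero_of_mul q) i
          simp only [up, Pi.zero_apply, Pi.sub_apply] at this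
          show w i ≤ n i
          omega
      have h2 : ∑ w ∈ Finset.Icc 0 n, τ w * ex κ (up n - up w) =
          τ n + ∑ w ∈ Finset.Ioo 0 n, τ w * κ (n - w) := by
        have l : 0 < n := pos_iff_ne_zero.2 z
        rw [← Finset.add_sum_Ioc_eq_sum_Icc l.le, τ0, zero_mul, zero_add,
          ← Finset.add_sum_Ioo_eq_sum_Ioc l, sub_self, show (0 : Fin g → ℤ) = up 0 from rfl, ex_up,
          κ1, mul_one]
        refine congrArg _ (Finset.sum_congr rfl fun w hw => ?_)
        rw [← ex_up κ (n - w)]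
        congr 2
        exact funext fun i => (Nat.cast_sub ((Finset.mem_Ioo.1 hw).2.le i)).symm
      refine ⟨_, h1, fun _ => ?_, fun n' h h' => ?_⟩
      · rw [h2, ex_up, hτ n z]; linarith [le_max_right 0 (κ n - ∑ w ∈ Finset.Ioo 0 n,
          τ w * κ (n - w))]
      · obtain rfl := i n' h
        rw [h2]
        rw [hτ n z] at h' ⊢
        rw [max_eq_right_of_lt (lt_of_not_ge fun q => h' (max_eq_left q)), sub_add_cancel]
    · refine ⟨0, zr _ fun w q => c fun i => ?_, fun _ => (if_neg c).le, fun n h =>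
        (c (h ▸ fun i => Int.natCast_nonneg _)).elim⟩
      have := ex_ne (right_ne_zero_of_mul q) i
      simp only [up, Pi.zero_apply, Pi.sub_apply] at this ⊢
      omega
  choose c hc c1 c2 using a
  have dg : ∀ {b : Fin g → ℤ}, ex κ b ≠ 0 → b ≠ 0 → 1 ≤ ∑ i, b i := fun {b} h h' => by
    obtain ⟨i, hi⟩ := Function.ne_iff.1 h'
    have := ex_ne h
    have h1 := Finset.single_le_sum (fun j _ => this j) (Finset.mem_univ i)
    have h2 := this i
    simp only [Pi.zero_apply] at hi h2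
    omega
  have cv : ∀ (S : Finset (Fin g → ℕ)) (y : (Fin g → ℕ) → ℝ) m, HasSum (fun w => τ w *
      ∑ n ∈ S, y n * ex κ (up n - (m + up w))) (∑ n ∈ S, y n * c (up n - m)) := fun S y m => by
    simpa only [Finset.mul_sum, sub_sub, mul_left_comm] using
      hasSum_sum fun n (_ : n ∈ S) => (hc (up n - m)).mul_left (y n)
  have b : ∀ (S : Finset (Fin g → ℕ)) (y : (Fin g → ℕ) → ℝ), (∀ n, 0 ≤ y n) →
      (∀ m ∈ S, ∑ n ∈ S, y n * ex κ (up n - up m) ≤ 1) →
      ∀ m, ∑ n ∈ S, y n * ex κ (up n - m) ≤ 1 := fun S y y0 h => by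
    obtain ⟨D, hD⟩ := (S.image fun n => ∑ i, up n i).bddAbove
    suffices H : ∀ d : ℕ, ∀ m, D < ∑ i, m i + d → ∑ n ∈ S, y n * ex κ (up n - m) ≤ 1 from
      fun m => H (D + 1 - ∑ i, m i).toNat m (by omega)
    intro d
    induction d with
    | zero =>
      intro m hm
      refine (Finset.sum_eq_zero fun n hn => mul_eq_zero_of_right _ (by_contra fun q => ?_)).trans_le
        zero_le_one
      have h1 := Finset.sum_nonneg fun i (_ : i ∈ Finset.univ) => ex_ne q i
      have h2 := hD (Finset.mem_coe.2 (Finset.mem_image_of_mem _ hn))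
      simp only [Pi.sub_apply, Finset.sum_sub_distrib] at h1
      omega
    | succ d ih =>
      intro m hm
      by_cases q : ∃ n ∈ S, up n = m
      · obtain ⟨n, hn, rfl⟩ := q
        exact h n hn
      refine (Finset.sum_le_sum fun n hn => mul_le_mul_of_nonneg_left
        (c1 _ (sub_ne_zero.2 fun e => q ⟨n, hn, e⟩)) (y0 n)).trans
        (hasSum_le (fun w => ?_) (cv S y m) hs)
      by_cases z : w = 0
      · simp [z, τ0]
      refine mul_le_of_le_one_right (t0 w) (ih _ ?_)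
      obtain ⟨i, hi⟩ := Function.ne_iff.1 z
      have := Finset.single_le_sum (f := up w) (fun j _ => Int.natCast_nonneg _) (Finset.mem_univ i)
      simp only [Pi.add_apply, Finset.sum_add_distrib, up, Pi.zero_apply] at *
      omega
  have d : ∀ S : Finset (Fin g → ℕ), ∃ y : (Fin g → ℕ) → ℝ, (∀ n, 0 ≤ y n) ∧
      ∀ m ∈ S, ∑ n ∈ S, y n * ex κ (up n - up m) = 1 := fun S => by
    induction S using Finset.induction_on_min_value fun n => ∑ i, up n i with
    | empty => exact ⟨0, fun _ => le_rfl, by simp⟩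
    | insert a S ha hm ih =>
      obtain ⟨y, y0, hy⟩ := ih
      refine ⟨Function.update y a (1 - ∑ n ∈ S, y n * ex κ (up n - up a)), fun n => ?_,
        fun m h => ?_⟩
      · by_cases q : n = a
        · simpa [q] using b S y y0 (fun m h => (hy m h).le) _
        · simpa [q] using y0 n
      have e : ∀ v, ∑ n ∈ S, Function.update y a v n * ex κ (up n - up m) =
          ∑ n ∈ S, y n * ex κ (up n - up m) := fun v => Finset.sum_congr rfl fun n hn => by
        rw [Function.update_of_ne (by rintro rfl; exact ha hn)]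
      rw [Finset.sum_insert ha, Function.update_self, e]
      rcases Finset.mem_insert.1 h with rfl | h
      · rw [sub_self, show (0 : Fin g → ℤ) = up 0 from rfl, ex_up, κ1]; ring
      · rw [hy m h, show ex κ (up a - up m) = 0 from by_contra fun q => ?_]; · ring
        have := dg q (sub_ne_zero.2 fun e => ha (by
          rwa [show a = m from funext fun i => Int.natCast_inj.1 (congrFun e i)]))
        have := hm m h
        simp only [Pi.sub_apply, Finset.sum_sub_distrib] at *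
        omega
  obtain ⟨S0, hS0⟩ := (hs.eventually (lt_mem_nhds (sub_lt_self 1 ε0))).exists
  obtain ⟨y, y0, hy⟩ := d (S0.filter fun n => τ n ≠ 0)
  refine ⟨_, y, by simp [τ0], y0, b _ y y0 fun m h => (hy m h).le, hS0.le.trans ?_⟩
  rw [← Finset.sum_filter_ne_zero, ← Finset.sum_congr rfl fun n hn => congrArg (y n * ·)
    (c2 _ n (sub_zero _) (Finset.mem_filter.1 hn).2)]
  refine le_trans (le_of_eq (Finset.sum_congr rfl fun w hw => ?_)) (sum_le_hasSum _ (fun w _ =>
    mul_nonneg (t0 w) (Finset.sum_nonneg fun n _ => mul_nonneg (y0 n) (e0 _))) (cv _ y 0))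
  rw [zero_add, hy w hw, mul_one]

lemma mv {h : ℂ → ℂ} {q M : ℝ} (q0 : 0 < q) (q1 : q < 1)
    (hd : DifferentiableOn ℂ h (closedBall 0 (q ^ 2)⁻¹))
    (hM : ∀ z ∈ closedBall (0 : ℂ) (q ^ 2)⁻¹, ‖h z‖ ≤ M) (N : ℕ) [NeZero N] :
    ‖∑ t : ZMod N, h (ZMod.stdAddChar t) - N * h 0‖ ≤ N * M * q ^ N * (1 - q)⁻¹ := by
  have r1 : 1 < (q ^ 2)⁻¹ := one_lt_inv₀ (by positivity) |>.2 (by nlinarith)
  have M0 : 0 ≤ M := (norm_nonneg _).trans (hM 0 (mem_closedBall_self (by positivity)))
  have a := hasSum_sum fun (t : ZMod N) (_ : t ∈ Finset.univ) =>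
    Complex.hasSum_taylorSeries_on_ball (hd.mono ball_subset_closedBall)
      (z := ZMod.stdAddChar t) (by simpa [ZMod.stdAddChar_apply] using r1)
  have b := a.sub (hasSum_ite_eq 0 (N * h 0))
  rw [← b.tsum_eq]
  refine tsum_of_norm_bounded ((hasSum_geometric_of_lt_one q0.le q1).mul_left _) fun n => ?_
  have c := Complex.norm_iteratedDeriv_le_of_forall_mem_sphere_norm_le n (by positivity)
    (hd.mono closure_ball_subset_closedBall).diffContOnCl fun z hz =>
      hM z (sphere_subset_closedBall hz)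
  simp only [sub_zero, ← AddChar.map_nsmul_eq_pow, smul_eq_mul, ← Finset.mul_sum, ← Finset.sum_mul,
    nsmul_eq_mul, mul_comm (n : ZMod N), AddChar.sum_mulShift _ (ZMod.isPrimitive_stdAddChar N),
    ZMod.card]
  by_cases z : n = 0
  · simp [z]; positivity
  by_cases e : (n : ZMod N) = 0
  · have := Nat.le_of_dvd (Nat.pos_of_ne_zero z) ((ZMod.natCast_eq_zero_iff _ _).1 e)
    have f : (0 : ℝ) < n.factorial := by positivity
    simp only [z, e, if_true, if_false, sub_zero, norm_mul, norm_inv, Complex.norm_natCast]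
    calc _ ≤ (n.factorial : ℝ)⁻¹ * (N * (n.factorial * M / (q ^ 2)⁻¹ ^ n)) := by gcongr
      _ = N * M * q ^ n * q ^ n := by rw [inv_pow, div_inv_eq_mul]; field_simp; ring
      _ ≤ _ := by
        gcongr ?_ * _
        exact mul_le_mul_of_nonneg_left (pow_le_pow_of_le_one q0.le q1.le this) (by positivity)
  · simp [z, e]; positivity

lemma ser {K : (Fin g → ℂ) × (Fin g → ℂ) → ℂ} {ρ : ℝ}
    (hK : DifferentiableOn ℂ K (ball 0 ρ ×ˢ ball 0 ρ)) {c : (Fin g → ℕ) → ℝ} (c0 : ∀ a, 0 ≤ c a)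
    (hc : ∀ᶠ p in 𝓝 0, HasSum (fun a => (c a : ℂ) * (∏ i, p.1 i ^ a i) * ∏ i, p.2 i ^ a i) (K p)) :
    (∀ t, 0 < t → t < ρ → Summable fun a => c a * t ^ (2 * ∑ i, a i)) ∧ ∀ z ∈ ball 0 ρ,
      ∀ w ∈ ball 0 ρ, HasSum (fun a => (c a : ℂ) * (∏ i, z i ^ a i) * ∏ i, w i ^ a i)
        (K (z, w)) := by
  have p0 : ∀ z w : Fin g → ℂ, ∀ᶠ s : ℂ in 𝓝 0, HasSum (fun a => (c a : ℂ) * (∏ i, z i ^ a i) *
      (∏ i, w i ^ a i) * s ^ (2 * ∑ i, a i)) (K (s • z, s • w)) := fun z w => by
    have t : Tendsto (fun s : ℂ => (s • z, s • w)) (𝓝 0) (𝓝 0) :=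
      Continuous.tendsto' (by fun_prop) _ _ (by simp)
    filter_upwards [t.eventually hc] with s hs
    convert hs using 2 with a
    simp only [Pi.smul_apply, smul_eq_mul, mul_pow, Finset.prod_mul_distrib,
      Finset.prod_pow_eq_pow_sum]
    ring
  have p1 : ∀ z w : Fin g → ℂ, ∀ U : Set ℂ, (∀ s ∈ U, ‖s • z‖ < ρ ∧ ‖s • w‖ < ρ) →
      DifferentiableOn ℂ (fun s : ℂ => K (s • z, s • w)) U := fun z w U h =>
    hK.comp (by fun_prop) fun s hs => by simpa using h s hs
  have a : ∀ t, 0 < t → t < ρ → Summable fun a => c a * t ^ (2 * ∑ i, a i) := fun t t0 ht => by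
    obtain ⟨u, h1, h2⟩ := exists_between ht
    lift u to NNReal using (t0.trans h1).le
    have b1 := (p1 1 1 (closedBall 0 u) fun s hs => by
      have := (norm_smul_le s (1 : Fin g → ℂ)).trans (mul_le_mul (mem_closedBall_zero_iff.1 hs)
        ((pi_norm_le_iff_of_nonneg zero_le_one).2 (by simp)) (norm_nonneg _) u.2)
      constructor <;> linarith).hasFPowerSeriesOnBall (t0.trans h1)
    have f : ∀ n, Finite ((fun a : Fin g → ℕ => 2 * ∑ i, a i) ⁻¹' {n}) := fun n =>
      (Set.finite_Iic fun _ => n).subset fun a ha i => by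
        have := Finset.single_le_sum (fun j _ => Nat.zero_le (a j)) (Finset.mem_univ i)
        simp only [mem_preimage, mem_singleton_iff] at ha
        show a i ≤ n
        omega
    have e : ∀ {R : Type} [RCLike R] (s : R) n, ∑' a : ((fun a : Fin g → ℕ => 2 * ∑ i, a i) ⁻¹' {n}),
        (c a : R) * s ^ (2 * ∑ i, a.1 i) = s ^ n * (∑' a : ((fun a : Fin g → ℕ => 2 * ∑ i, a i) ⁻¹'
          {n}), c a : ℝ) := fun s n => by
      rw [RCLike.ofReal_tsum, ← tsum_mul_left]
      exact tsum_congr fun a => by rw [show 2 * ∑ i, a.1 i = n from a.2, mul_comm]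
    have b2 : HasFPowerSeriesAt (fun s : ℂ => K (s • 1, s • 1)) (FormalMultilinearSeries.ofScalars ℂ
        fun n => (((∑' a : ((fun a : Fin g → ℕ => 2 * ∑ i, a i) ⁻¹' {n}), c a : ℝ)) : ℂ)) 0 := by
      refine hasFPowerSeriesAt_iff.2 ((p0 1 1).mono fun s hs => ?_)
      simp only [Pi.one_apply, one_pow, Finset.prod_const_one, mul_one] at hs
      simp only [FormalMultilinearSeries.coeff_ofScalars, zero_add, smul_eq_mul]
      convert hs.tsum_fiberwise fun a => 2 * ∑ i, a i using 2 with n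
      exact (e s n).symm
    rw [b1.hasFPowerSeriesAt.eq_formalMultilinearSeries b2] at b1
    have b3 := (b1.hasSum (y := t) (by
      rw [Metric.eball_coe, mem_ball_zero_iff, Complex.norm_real, Real.norm_of_nonneg t0.le]
      exact h1)).summable
    simp only [FormalMultilinearSeries.ofScalars_apply_eq, smul_eq_mul, ← Complex.ofReal_pow,
      ← Complex.ofReal_mul, Complex.summable_ofReal] at b3
    rw [← (Equiv.sigmaFiberEquiv fun a : Fin g → ℕ => 2 * ∑ i, a i).summable_iff]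
    refine (summable_sigma_of_nonneg fun x => mul_nonneg (c0 _) (by positivity)).2
      ⟨fun n => by
        have : Finite {x : Fin g → ℕ // 2 * ∑ i, x i = n} := f n
        exact Summable.of_finite, b3.congr fun n => ?_⟩
    exact (mul_comm _ _).trans (e t n).symm
  refine ⟨a, fun z hz w hw => ?_⟩
  obtain ⟨t, h1, h2⟩ := exists_between (max_lt (mem_ball_zero_iff.1 hz) (mem_ball_zero_iff.1 hw))
  obtain ⟨u, h3, h4⟩ := exists_between h2
  have t0 : 0 < t := lt_of_le_of_lt (by positivity) h1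
  have n : ∀ z : Fin g → ℂ, ‖z‖ < t → ∀ s ∈ ball (0 : ℂ) (u / t), ‖s • z‖ ≤ u := fun z hz s hs => by
    rw [norm_smul, ← div_mul_cancel₀ u t0.ne']
    exact mul_le_mul (mem_ball_zero_iff.1 hs).le hz.le (norm_nonneg _) (by
      have := t0.trans h3; positivity)
  have nz := n z ((le_max_left _ _).trans_lt h1)
  have nw := n w ((le_max_right _ _).trans_lt h1)
  have bd : ∀ (a : Fin g → ℕ) (s : ℂ), s ∈ ball (0 : ℂ) (u / t) → ‖(c a : ℂ) * (∏ i, z i ^ a i) *
      (∏ i, w i ^ a i) * s ^ (2 * ∑ i, a i)‖ ≤ c a * u ^ (2 * ∑ i, a i) := fun a s hs => by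
    have : ∀ z : Fin g → ℂ, ‖s • z‖ ≤ u → ‖s ^ (∑ i, a i) * ∏ i, z i ^ a i‖ ≤ u ^ ∑ i, a i :=
      fun z h => by
        rw [← Finset.prod_pow_eq_pow_sum, ← Finset.prod_pow_eq_pow_sum, ← Finset.prod_mul_distrib,
          norm_prod]
        refine Finset.prod_le_prod (fun _ _ => norm_nonneg _) fun i _ => ?_
        rw [← mul_pow, norm_pow]
        exact pow_le_pow_left₀ (norm_nonneg _) ((norm_le_pi_norm (s • z) i).trans h) _
    rw [show (c a : ℂ) * (∏ i, z i ^ a i) * (∏ i, w i ^ a i) * s ^ (2 * ∑ i, a i) = c a *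
      ((s ^ (∑ i, a i) * ∏ i, z i ^ a i) * (s ^ (∑ i, a i) * ∏ i, w i ^ a i)) by ring, norm_mul,
      norm_mul, Complex.norm_real, Real.norm_of_nonneg (c0 a), two_mul, pow_add]
    exact mul_le_mul_of_nonneg_left (mul_le_mul (this z (nz s hs)) (this w (nw s hs))
      (norm_nonneg _) (by have := t0.trans h3; positivity)) (c0 a)
  have o : (1 : ℂ) ∈ ball (0 : ℂ) (u / t) := by simpa using (one_lt_div t0).2 h3
  have su := a u (t0.trans h3) h4
  have := ((Complex.differentiableOn_tsum_of_summable_norm su (fun _ => by fun_prop) isOpen_ball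
    bd).analyticOnNhd isOpen_ball).eqOn_of_preconnected_of_eventuallyEq
    ((p1 z w _ fun s hs => ⟨(nz s hs).trans_lt h4, (nw s hs).trans_lt h4⟩).analyticOnNhd
      isOpen_ball) (convex_ball _ _).isPreconnected (mem_ball_self (by
        have := t0.trans h3; positivity)) ((p0 z w).mono fun s hs => hs.tsum_eq) o
  have s1 := (Summable.of_norm_bounded su fun a => bd a 1 o).hasSum
  simp only [one_pow, mul_one, one_smul] at this s1
  rwa [this] at s1

end Pool.Agent.H.MP_a1177b_an
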