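import Pool.Agent.H.MP_a1177b_an.A
import Pool.Agent.H.MP_e3a8c8_an.D

namespace Pool.Agent.H.MP_a1177b_an

open Set Filter Topology Metric Matrix Pool.Agent.H.MP_e3a8c8_an
open scoped ComplexOrder ComplexConjugate

variable {g N : ℕ} [NeZero N]

/-- characters of the grid -/
noncomputable def ch (r j : Fin g → ZMod N) : ℂ := ∏ i, ZMod.stdAddChar (r i * j i)

/-- reduction of integer multi-indices -/
def pr (N : ℕ) (b : Fin g → ℤ) : Fin g → ZMod N := fun i => b i

lemma ch_sub (r s j : Fin g → ZMod N) : ch (r - s) j = ch r j * conj (ch s j) := by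
  simp only [ch, map_prod, ← Finset.prod_mul_distrib, ← AddChar.map_neg_eq_conj,
    ← AddChar.map_add_eq_mul, Pi.sub_apply]
  exact Finset.prod_congr rfl fun i _ => by ring_nf

lemma ch_comm (r j : Fin g → ZMod N) : ch r j = ch j r := by simp only [ch, mul_comm]

lemma ch_sum (r : Fin g → ZMod N) : ∑ j, ch r j = if r = 0 then (N : ℂ) ^ g else 0 := by
  simp only [ch]
  rw [← Fintype.prod_sum fun i (t : ZMod N) => ZMod.stdAddChar (r i * t)]
  simp only [mul_comm (r _), AddChar.sum_mulShift _ (ZMod.isPrimitive_stdAddChar N), ZMod.card]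
  split_ifs with h
  · simp [h]
  · obtain ⟨i, hi⟩ := Function.ne_iff.1 h
    exact Finset.prod_eq_zero (Finset.mem_univ i) (by rw [if_neg (show ¬r i = 0 from hi), Nat.cast_zero])

lemma grid {κ y : (Fin g → ℕ) → ℝ} {σ : ℝ} (κ0 : ∀ a, 0 ≤ κ a) (hσ : HasSum κ σ)
    {p K : Matrix (Fin g → ZMod N) (Fin g → ZMod N) ℂ} (hp : p.PosSemidef)
    (hK : ∀ j l, HasSum (fun a => (κ a : ℂ) * ch (pr N (up a)) j * conj (ch (pr N (up a)) l))
      (K j l)) (hc : (p ⊙ K - of fun j l => K j l - 1).PosSemidef) (S A : Finset (Fin g → ℕ))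
    (y0 : ∀ n, 0 ≤ y n) (hy : ∀ m, ∑ n ∈ S, y n * ex κ (up n - m) ≤ 1)
    (nz : ∀ n ∈ S, pr N (up n) ≠ 0)
    (inj : InjOn (pr N) (((S ×ˢ A).image fun x => up x.1 - up x.2 : Finset (Fin g → ℤ)) :
      Set (Fin g → ℤ))) :
    (∑ n ∈ S, y n * κ n) * (N : ℝ) ^ g ≤
      (1 + (∑ n ∈ S, y n) * (σ - ∑ a ∈ A, κ a)) * ∑ j, (p j j).re := by
  classical
  have a : ∀ (M : Matrix _ _ ℂ) n, HasSum (fun a => κ a * (form .univ M
      (ch (n - pr N (up a)))).re) (form .univ (M ⊙ K) (ch n)).re := fun M n => by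
    have := Complex.hasSum_re (hasSum_sum fun j (_ : j ∈ Finset.univ) => hasSum_sum
      fun l (_ : l ∈ Finset.univ) => (((hK j l).mul_left (M j l)).mul_left
        (conj (ch n j))).mul_right (ch n l))
    convert this using 2 with a
    swap
    · rfl
    rw [← Complex.re_ofReal_mul]
    simp only [form, Finset.mul_sum, ch_sub, map_mul, Complex.conj_conj]
    exact congrArg _ (Finset.sum_congr rfl fun _ _ => Finset.sum_congr rfl fun _ _ => by ring)
  have b : ∀ r : Fin g → ZMod N, (form .univ (of fun _ _ => 1) (ch r)).re =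
      if r = 0 then ((N : ℝ) ^ g) ^ 2 else 0 := fun r => by
    simp only [form, of_apply, mul_one, ← Finset.mul_sum, ← Finset.sum_mul, ← map_sum, ch_sum]
    split_ifs
    · rw [← Complex.ofReal_natCast, ← Complex.ofReal_pow, Complex.conj_ofReal, ← Complex.ofReal_mul,
        Complex.ofReal_re, sq]
    · simp
  have P0 := fun r => form_re_nonneg hp .univ (ch r)
  have T : ∑ r, (form .univ p (ch r)).re = N ^ g * ∑ j, (p j j).re := by
    rw [← Complex.re_sum, ← Complex.re_sum, ← Complex.re_ofReal_mul]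
    refine congrArg _ ?_
    simp only [form]
    rw [Finset.sum_comm, Finset.mul_sum]
    refine Finset.sum_congr rfl fun j _ => ?_
    rw [Finset.sum_comm]
    have : ∀ l, ∑ r, conj (ch r j) * p j l * ch r l = if l = j then (N : ℂ) ^ g * p j l else 0 :=
      fun l => by
        rw [← ite_zero_mul, ← if_congr sub_eq_zero rfl rfl, ← ch_sum, Finset.sum_mul]
        exact Finset.sum_congr rfl fun r _ => by rw [ch_sub, ch_comm l, ch_comm j]; ring
    simp [this]
  have c : ∀ n ∈ S, κ n * ((N : ℝ) ^ g) ^ 2 ≤ (σ - ∑ a ∈ A, κ a) * (N ^ g * ∑ j, (p j j).re) +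
      ∑ a ∈ A, κ a * (form .univ p (ch (pr N (up n - up a)))).re := fun n hn => by
    have h1 := le_hasSum (a (of fun _ _ => 1) (pr N (up n))) n fun a _ => mul_nonneg (κ0 a) (by
      rw [b]; positivity)
    have h2 := sum_le_hasSum A (fun a _ => ?_) ((hσ.mul_right (N ^ g * ∑ j, (p j j).re)).sub
      (a p (pr N (up n))))
    · have h3 := form_re_nonneg hc .univ (ch (pr N (up n)))
      have h4 := b (pr N (up n))
      have e : form .univ (p ⊙ K - of fun j l => K j l - 1) (ch (pr N (up n))) =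
          form .univ (p ⊙ K) (ch (pr N (up n))) - form .univ ((of fun _ _ => 1) ⊙ K)
            (ch (pr N (up n))) + form .univ (of fun _ _ => 1) (ch (pr N (up n))) := by
        simp only [form, ← Finset.sum_sub_distrib, ← Finset.sum_add_distrib, Matrix.sub_apply,
          hadamard_apply, of_apply]
        exact Finset.sum_congr rfl fun _ _ => Finset.sum_congr rfl fun _ _ => by ring
      have e' : ∀ a, pr N (up n - up a) = pr N (up n) - pr N (up a) := fun a => funext fun i => by
        simp [pr]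
      rw [e, Complex.add_re, Complex.sub_re, h4, if_neg (nz n hn)] at h3
      rw [b, if_pos (sub_self _)] at h1
      rw [Finset.sum_sub_distrib, ← Finset.sum_mul] at h2
      simp only [e']
      linarith
    · rw [← mul_sub, ← T]
      exact mul_nonneg (κ0 a) (sub_nonneg.2 (Finset.single_le_sum (fun r _ => P0 r)
        (Finset.mem_univ _)))
  have d : ∑ n ∈ S, y n * ∑ a ∈ A, κ a * (form .univ p (ch (pr N (up n - up a)))).re ≤
      N ^ g * ∑ j, (p j j).re := by
    set D := (S ×ˢ A).image fun x => up x.1 - up x.2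
    calc _ ≤ ∑ n ∈ S, y n * ∑ m ∈ D, ex κ (up n - m) * (form .univ p (ch (pr N m))).re := by
          refine Finset.sum_le_sum fun n hn => mul_le_mul_of_nonneg_left ?_ (y0 n)
          refine (Eq.trans (Finset.sum_congr rfl fun a _ => by rw [sub_sub_cancel, ex_up])
            (Finset.sum_image (g := fun a => up n - up a) (f := fun m => ex κ (up n - m) *
              (form .univ p (ch (pr N m))).re) fun a _ a' _ h => ?_).symm).trans_le
            (Finset.sum_le_sum_of_subset_of_nonneg (fun m hm => ?_) fun m _ _ =>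
              mul_nonneg (by unfold ex; split_ifs; exacts [κ0 _, le_rfl]) (P0 _))
          · exact funext fun i => Int.natCast_inj.1 (congrFun (sub_right_injective h) i)
          · obtain ⟨a, ha, rfl⟩ := Finset.mem_image.1 hm
            exact Finset.mem_image.2 ⟨(n, a), Finset.mk_mem_product hn ha, rfl⟩
      _ = ∑ m ∈ D, (∑ n ∈ S, y n * ex κ (up n - m)) * (form .univ p (ch (pr N m))).re := by
          simp only [Finset.mul_sum, Finset.sum_mul, mul_assoc]
          exact Finset.sum_comm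
      _ ≤ ∑ m ∈ D, (form .univ p (ch (pr N m))).re :=
          Finset.sum_le_sum fun m _ => mul_le_of_le_one_left (P0 _) (hy m)
      _ ≤ _ := by
          rw [← T, ← Finset.sum_image (f := fun r => (form .univ p (ch r)).re) inj]
          exact Finset.sum_le_sum_of_subset_of_nonneg (Finset.subset_univ _) fun r _ _ => P0 r
  have e := Finset.sum_le_sum fun n hn => mul_le_mul_of_nonneg_left (c n hn) (y0 n)
  simp only [mul_add, Finset.sum_add_distrib, ← Finset.sum_mul, ← mul_assoc] at e
  have n0 : (0 : ℝ) < N ^ g := pow_pos (Nat.cast_pos.2 (NeZero.pos N)) _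
  refine le_of_mul_le_mul_left ?_ n0
  linarith

lemma pull {X Y : Type} {k l : Matrix Y Y ℂ} (hk : k.PosSemidef)
    (h : ∀ J, 1 ≤ J → ∀ (F : Finset Y) (W : F → Matrix (Fin J) (Fin J) ℂ),
      (Pick (k.submatrix (↑) (↑)) (l.submatrix (↑) (↑)) W).PosSemidef →
        ∃ Φ : Y → Matrix (Fin J) (Fin J) ℂ, (∀ x : F, Φ x = W x) ∧ (Pick k l Φ).PosSemidef)
    (ι : X → Y) (k0 : ∀ x, k (ι x) (ι x) ≠ 0) : CPpair (k.submatrix ι ι) (l.submatrix ι ι) := by
  classical
  intro n J _ hJ z W hW
  have a : ∀ i j, ι (z i) = ι (z j) → W i = W j := fun i j e => by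
    ext a b
    have := (hW.submatrix ![(i, a), (j, a)]).dotProduct_mulVec_nonneg ![1, -1]
    have e2 : star ![(1 : ℂ), -1] ⬝ᵥ (Pick ((k.submatrix ι ι).submatrix z z) ((l.submatrix ι ι).submatrix
        z z) W).submatrix ![(i, a), (j, a)] ![(i, a), (j, a)] *ᵥ ![1, -1] = -(k (ι (z j)) (ι (z j)) *
          ∑ b, (‖W i a b - W j a b‖ ^ 2 : ℝ)) := by
      simp only [Complex.ofReal_sum, Complex.ofReal_pow, ← Complex.mul_conj', map_sub, mul_sub, sub_mul, 
        Finset.sum_sub_distrib]
      simp [Pick, dotProduct, mulVec, Matrix.mul_apply, e, Matrix.one_apply]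
      ring
    rw [e2, Left.nonneg_neg_iff] at this
    have h2 := (Finset.sum_eq_zero_iff_of_nonneg fun b _ => sq_nonneg ‖W i a b - W j a b‖).1
      (le_antisymm (Complex.real_le_real.1 (le_of_mul_le_mul_left (this.trans_eq (by simp))
        (hk.diag_nonneg.lt_of_ne' (k0 _)))) (Finset.sum_nonneg fun b _ => sq_nonneg _)) b
        (Finset.mem_univ b)
    simpa [sub_eq_zero] using h2
  have b : ∀ x : Finset.univ.image (ι ∘ z), ∃ i, ι (z i) = x := fun x => by
    obtain ⟨i, -, hi⟩ := Finset.mem_image.1 x.2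
    exact ⟨i, hi⟩
  choose s hs using b
  obtain ⟨Φ, h1, h2⟩ := h J hJ _ (fun x => W (s x)) (by
    convert hW.submatrix (Prod.map s id) using 1
    ext x y
    simp [Pick, hs, Prod.map])
  exact ⟨Φ ∘ ι, h2.submatrix (Prod.map ι id), fun i =>
    (h1 ⟨_, Finset.mem_image_of_mem _ (Finset.mem_univ i)⟩).trans (a _ _ (hs _))⟩

end Pool.Agent.H.MP_a1177b_an
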