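import Pool.Agent.H.MP_a1177b_an.B

namespace Pool.Agent.H.MP_a1177b_an

open Set Filter Topology Metric Matrix Pool.Agent.H.MP_e3a8c8_an
open scoped ComplexOrder ComplexConjugate InnerProductSpace

variable {g : ℕ}

lemma rad {Ω : Set (Fin g → ℂ)} (ho : IsOpen Ω) (h0 : 0 ∈ Ω) {θ : (Fin g → ℕ) → ℝ} (θ0 : θ 0 = 0)
    (t0 : ∀ a, 0 ≤ θ a) (i : Fin g) (hi : 0 < θ (Pi.single i 1))
    (hs : ∀ r, ball 0 r ⊆ Ω → ∀ t, 0 < t → t < r → Summable fun a => θ a * t ^ (2 * ∑ i, a i))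
    (h : closure {x | x ∈ interior {x : Fin g → ℂ | BddAbove (range fun a => θ a *
      ∏ j, ‖x j‖ ^ (2 * a j))} ∧ ∃ s < 1, HasSum (fun a => θ a * ∏ j, ‖x j‖ ^ (2 * a j)) s} ⊆ Ω) :
    ∃ R r, 0 ≤ R ∧ R < r ∧ ball 0 r ⊆ Ω ∧ HasSum (fun a => θ a * R ^ (2 * ∑ i, a i)) 1 := by
  let B := {t : ℝ | 0 ≤ t ∧ ∃ s < 1, HasSum (fun a => θ a * t ^ (2 * ∑ i, a i)) s}
  have b0 : 0 ∈ B := ⟨le_rfl, 0, zero_lt_one, by
    convert hasSum_zero with a
    by_cases z : a = 0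
    · simp [z, θ0]
    · rw [zero_pow, mul_zero]
      exact mul_ne_zero two_ne_zero fun e => z (funext fun j =>
        Finset.sum_eq_zero_iff.1 e j (Finset.mem_univ j))⟩
  have bd : BddAbove B := ⟨1 + (θ (Pi.single i 1))⁻¹, fun t ⟨h1, s, h2, h3⟩ => by
    have := le_hasSum h3 (Pi.single i 1) fun a _ => mul_nonneg (t0 a) (by positivity)
    simp only [Finset.sum_pi_single', Finset.mem_univ, if_true, mul_one] at this
    have : t ^ 2 ≤ (θ (Pi.single i 1))⁻¹ := by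
      rw [← mul_one (_⁻¹), le_inv_mul_iff₀ hi]; linarith
    nlinarith [inv_pos.2 hi]⟩
  have R0 := le_csSup bd b0
  have cb : closedBall 0 (sSup B) ⊆ Ω := by
    rcases R0.eq_or_lt with e | e
    · rw [← e, closedBall_zero]; simpa
    rw [← closure_ball _ e.ne']
    refine (closure_mono fun x hx => ?_).trans h
    obtain ⟨t, ⟨h1, s, h2, h3⟩, h4⟩ := exists_lt_of_lt_csSup ⟨0, b0⟩ (mem_ball_zero_iff.1 hx)
    have a : ∀ x : Fin g → ℂ, ‖x‖ < t → ∀ a, θ a * ∏ j, ‖x j‖ ^ (2 * a j) ≤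
        θ a * t ^ (2 * ∑ i, a i) := fun x hx a => by
      rw [Finset.mul_sum, ← Finset.prod_pow_eq_pow_sum]
      exact mul_le_mul_of_nonneg_left (Finset.prod_le_prod (fun _ _ => by positivity) fun j _ =>
        pow_le_pow_left₀ (norm_nonneg _) ((norm_le_pi_norm x j).trans hx.le) _) (t0 a)
    have b := Summable.of_nonneg_of_le (fun a => mul_nonneg (t0 a) (by positivity)) (a x h4)
      h3.summable
    refine ⟨interior_maximal (fun y hy => ?_) isOpen_ball (mem_ball_zero_iff.2 h4), _,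
      (hasSum_le (a x h4) b.hasSum h3).trans_lt h2, b.hasSum⟩
    refine ⟨s, ?_⟩
    rintro _ ⟨c, rfl⟩
    exact (a y (mem_ball_zero_iff.1 hy) c).trans
      (le_hasSum h3 c fun a _ => mul_nonneg (t0 a) (by positivity))
  obtain ⟨δ, δ0, hδ⟩ := (isCompact_closedBall _ _).exists_thickening_subset_open ho cb
  rw [thickening_closedBall δ0 R0] at hδ
  obtain ⟨u, h1, h2⟩ := exists_between (lt_add_of_pos_left (sSup B) δ0)
  have su := hs _ hδ u (R0.trans_lt h1) h2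
  have bn : ∀ (a : Fin g → ℕ) (t : ℝ), t ∈ Icc 0 u → ‖θ a * t ^ (2 * ∑ i, a i)‖ ≤
      θ a * u ^ (2 * ∑ i, a i) := fun a t ht => by
    rw [Real.norm_of_nonneg (mul_nonneg (t0 a) (pow_nonneg ht.1 _))]
    exact mul_le_mul_of_nonneg_left (pow_le_pow_left₀ ht.1 ht.2 _) (t0 a)
  have ct := continuousOn_tsum (fun a => by fun_prop) su bn (sSup B) ⟨R0, h1.le⟩
  refine ⟨_, _, R0, h1.trans h2, hδ, ?_⟩
  refine (?_ : 1 = ∑' a, θ a * sSup B ^ (2 * ∑ i, a i)) ▸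
    (su.of_norm_bounded fun a => bn a _ ⟨R0, h1.le⟩).hasSum
  refine le_antisymm (not_lt.1 fun q => ?_) ((ct.mono fun t ht => ⟨ht.1, (le_csSup bd ht).trans
    h1.le⟩).closure_le (csSup_mem_closure ⟨0, b0⟩ bd) continuousWithinAt_const
      fun t ⟨_, s, h3, h4⟩ => h4.tsum_eq.trans_le h3.le)
  obtain ⟨t, h3, h4⟩ := (((ct.mono_of_mem_nhdsWithin (mem_of_superset (Ioo_mem_nhdsGT h1)
    fun t ht => ⟨R0.trans ht.1.le, ht.2.le⟩)).eventually_lt_const q).and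
      (Ioo_mem_nhdsGT h1)).exists
  exact (le_csSup bd ⟨R0.trans h4.1.le, _, h3, (su.of_norm_bounded fun a => bn a _
    ⟨R0.trans h4.1.le, h4.2.le⟩).hasSum⟩).not_gt h4.1

lemma evN (b : Fin g → ℤ) : ∀ᶠ N in atTop, pr N b = 0 → b = 0 := by
  filter_upwards [eventually_all.2 fun i => eventually_gt_atTop (b i).natAbs] with N hN h
  exact funext fun i => Int.eq_zero_of_dvd_of_natAbs_lt_natAbs
    ((ZMod.intCast_zmod_eq_zero_iff_dvd _ _).1 (congrFun h i)) (hN i)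

lemma avg {h : (Fin g → ℂ) → ℂ} {R r : ℝ} (R0 : 0 ≤ R) (hr : R < r)
    (hd : DifferentiableOn ℂ h (ball 0 r)) (h0 : h 0 ≠ 0) : ∀ᶠ N in atTop, ∀ [NeZero N],
      ∃ s : ℂ, ‖s‖ = 1 ∧ (∀ j : Fin g → ZMod N, h (fun i => s * R * ZMod.stdAddChar (j i)) ≠ 0) ∧
        (N : ℝ) ^ g * ‖h 0‖ ^ 2 / 2 ≤
          ∑ j : Fin g → ZMod N, ‖h fun i => s * R * ZMod.stdAddChar (j i)‖ ^ 2 := by
  obtain ⟨q, h1, q0, q1⟩ := (((Continuous.continuousWithinAt (s := Iio 1) (x := (1 : ℝ)) (f := fun q =>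
    R - r * q ^ 2) (by fun_prop)).eventually_lt_const (u := 0) (by simpa using hr)).and
      (Ioo_mem_nhdsLT zero_lt_one)).exists
  have q2 : 1 < (q ^ 2)⁻¹ := one_lt_inv₀ (by positivity) |>.2 (by nlinarith)
  have h2 : (q ^ 2)⁻¹ * R < r := by rw [inv_mul_lt_iff₀ (by positivity)]; linarith
  obtain ⟨M, hM⟩ := (isCompact_closedBall 0 ((q ^ 2)⁻¹ * R)).exists_bound_of_continuousOn
    ((hd.pow 2).continuousOn.mono (closedBall_subset_ball h2))
  have a : ∀ x : Fin g → ℂ, ‖x‖ ≤ R → ∀ u ∈ closedBall (0 : ℂ) (q ^ 2)⁻¹,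
      u • x ∈ closedBall (0 : Fin g → ℂ) ((q ^ 2)⁻¹ * R) := fun x hx u hu => by
    rw [mem_closedBall_zero_iff, norm_smul]
    exact mul_le_mul (mem_closedBall_zero_iff.1 hu) hx (norm_nonneg _) (by positivity)
  have b : ∀ x : Fin g → ℂ, ‖x‖ ≤ R → DifferentiableOn ℂ (fun u : ℂ => h (u • x))
      (closedBall 0 (q ^ 2)⁻¹) := fun x hx =>
    hd.comp (by fun_prop) fun u hu => closedBall_subset_ball h2 (a x hx u hu)
  have t : Tendsto (fun N : ℕ => M * q ^ N * (1 - q)⁻¹) atTop (𝓝 (M * 0 * (1 - q)⁻¹)) :=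
    ((tendsto_pow_atTop_nhds_zero_of_lt_one q0.le q1).const_mul _).mul_const _
  filter_upwards [t.eventually_lt_const (u := ‖h 0‖ ^ 2 / 2) (by simpa [sq_pos_iff] using h0)] with N hN _
  have c : ∀ s : ℂ, ‖s‖ = 1 → ∀ j : Fin g → ZMod N,
      ‖fun i => s * R * ZMod.stdAddChar (j i)‖ ≤ R := fun s hs j =>
    (pi_norm_le_iff_of_nonneg R0).2 fun i => by simp [hs, abs_of_nonneg R0]
  obtain ⟨s, hs, hz⟩ : ∃ s : ℂ, ‖s‖ = 1 ∧ ∏ j : Fin g → ZMod N,
      h (s • fun i => 1 * R * ZMod.stdAddChar (j i)) ≠ 0 := by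
    by_contra! q
    have := Complex.norm_le_of_forall_mem_frontier_norm_le (C := 0) isBounded_ball
      ((DifferentiableOn.fun_finsetProd fun j (_ : j ∈ Finset.univ) => b _ (c 1 norm_one j)).mono
        (closure_ball_subset_closedBall.trans (closedBall_subset_closedBall q2.le))).diffContOnCl
      (fun s hs => by rw [q s (by simpa [frontier_ball] using hs), norm_zero])
      (subset_closure (mem_ball_self zero_lt_one))
    obtain ⟨j, -, hj⟩ := Finset.prod_eq_zero_iff.1 (norm_le_zero_iff.1 this)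
    exact h0 (by simpa using hj)
  refine ⟨s, hs, fun j => ?_, ?_⟩
  · convert Finset.prod_ne_zero_iff.1 hz j (Finset.mem_univ j) using 3
    simp [mul_assoc]
  have n0 : (0 : ℝ) < N := Nat.cast_pos.2 (NeZero.pos N)
  have d : ∀ t : ZMod N, ∑ j : Fin g → ZMod N, ‖h fun i => s * R * ZMod.stdAddChar (j i)‖ ^ 2 =
      ∑ j : Fin g → ZMod N, ‖h (ZMod.stdAddChar t • fun i => s * R * ZMod.stdAddChar (j i)) ^ 2‖ :=
    fun t => (Fintype.sum_equiv (.addRight fun _ => t) _ _ fun j => by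
      rw [norm_pow]
      congr 3
      ext i
      simp [AddChar.map_add_eq_mul]
      ring).symm
  have e := Finset.sum_congr rfl fun t (_ : t ∈ Finset.univ) => d t
  rw [Finset.sum_const, Finset.card_univ, ZMod.card, nsmul_eq_mul, Finset.sum_comm] at e
  refine le_of_mul_le_mul_left ?_ n0
  rw [e]
  refine le_trans (le_of_eq ?_) (Finset.card_nsmul_le_sum _ _ (N * (‖h 0‖ ^ 2 / 2)) fun j _ =>
    le_trans ?_ (norm_sum_le _ _))
  · simp; ring
  have f := mv q0 q1 ((b _ (c s hs j)).fun_pow 2) (fun u hu => hM _ (a _ (c s hs j) u hu)) N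
  have f2 := (norm_sub_norm_le _ _).trans ((norm_sub_rev _ _).trans_le f)
  rw [zero_smul, norm_mul, norm_pow, Complex.norm_natCast, mul_assoc, mul_assoc,
    ← mul_assoc M] at f2
  nlinarith

end Pool.Agent.H.MP_a1177b_an
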